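import Pool.Agent.H89.Perc.Decay

/-!
# Exploration of clusters

`D` is a finite set of vertices, `clus ω D X` the union of the clusters in `D` of the vertices of
`X`.  Given this set, the edges of `D` which do not touch it are fresh.
-/

open MeasureTheory ProbabilityTheory unitInterval

namespace Pool.Agent.H26.HP

open Pool.Agent.H89.Perc

variable {ω ω' : Config} {D X S : Set Vert} {R : ℕ} {q : I}

/-- The union of the clusters in `D` of the vertices of `X`. -/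
def clus (ω : Config) (D X : Set Vert) : Set Vert := {v | ∃ x ∈ X, Conn ω D x v}

/-- `S` is the union of the clusters in `D` of the vertices of `X`. -/
def Full (D X S : Set Vert) : Set Config := {ω | clus ω D X = S}

/-- `S` is a cluster of `D`. -/
def IsClus (D S : Set Vert) : Set Config := {ω | ∃ u ∈ S, clus ω D {u} = S}

/-- The edges with both ends in `D`. -/
noncomputable def eIn (R : ℕ) (D : Set Vert) : Finset Edge := by
  classical exact (eBall R).filter (fun e => src e ∈ D ∧ tgt e ∈ D)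

/-- The edges of `D` with at least one end in `S`. -/
noncomputable def eTouch (R : ℕ) (D S : Set Vert) : Finset Edge := by
  classical exact (eBall R).filter (fun e => (src e ∈ D ∧ tgt e ∈ D) ∧ (src e ∈ S ∨ tgt e ∈ S))

lemma mem_eIn {e : Edge} : e ∈ eIn R D ↔ e ∈ eBall R ∧ src e ∈ D ∧ tgt e ∈ D := by
  classical
  simp only [eIn, Finset.mem_filter]

lemma mem_eTouch {e : Edge} : e ∈ eTouch R D S ↔
    e ∈ eBall R ∧ (src e ∈ D ∧ tgt e ∈ D) ∧ (src e ∈ S ∨ tgt e ∈ S) := by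
  classical
  simp only [eTouch, Finset.mem_filter]

lemma eTouch_disjoint : Disjoint (eTouch R D S) (eIn R (D \ S)) := by
  rw [Finset.disjoint_left]
  intro e h1 h2
  rw [mem_eTouch] at h1
  rw [mem_eIn] at h2
  rcases h1.2.2 with h | h
  · exact h2.2.1.2 h
  · exact h2.2.2.2 h

lemma localOn_conn_in (hD : D ⊆ ball 0 R) (u v : Vert) :
    LocalOn (eIn R D) {ω | Conn ω D u v} := by
  intro ω ω' h hc
  exact Conn.congr (fun e h1 h2 => h e (mem_eIn.2 ⟨mem_eBall.2 (hD h1), h1, h2⟩)) hc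

lemma clus_subset : clus ω D X ⊆ D := fun _ ⟨_, _, h⟩ => h.mem_right

lemma mem_clus_of_conn {u v : Vert} (hu : u ∈ clus ω D X) (h : Conn ω D u v) :
    v ∈ clus ω D X := by
  obtain ⟨x, hx, hc⟩ := hu
  exact ⟨x, hx, hc.trans h⟩

lemma subset_clus (h : X ⊆ D) : X ⊆ clus ω D X := fun x hx => ⟨x, hx, Conn.refl (h hx)⟩

/-- A path which starts outside of the explored set stays outside. -/
lemma conn_off {u v : Vert} (hu : u ∉ clus ω D X) (h : Conn ω D u v) :
    Conn ω (D \ clus ω D X) u v := by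
  refine h.induction_right (P := fun x => Conn ω (D \ clus ω D X) u x)
    (Conn.refl ⟨h.mem_left, hu⟩) ?_
  intro a b ha hab ih
  refine ih.tail ⟨ih.mem_right, ⟨hab.2.1, fun hb => hu ?_⟩, hab.2.2⟩
  exact mem_clus_of_conn hb (ha.tail hab).symm

lemma localOn_full (hD : D ⊆ ball 0 R) : LocalOn (eTouch R D S) (Full D X S) := by
  intro ω ω' h hω
  have hω' : clus ω D X = S := hω
  have hedge : ∀ a b : Vert, a ∈ S → Step ω D a b → Step ω' D a b := by
    rintro a b ha ⟨h1, h2, e, h3, h4⟩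
    refine ⟨h1, h2, e, h3, ?_⟩
    rw [← h e, h4]
    rw [mem_eTouch]
    rcases h3 with ⟨h5, h6⟩ | ⟨h5, h6⟩
    · exact ⟨mem_eBall.2 (hD (h5 ▸ h1)), ⟨h5 ▸ h1, h6 ▸ h2⟩, Or.inl (h5 ▸ ha)⟩
    · exact ⟨mem_eBall.2 (hD (h6 ▸ h2)), ⟨h6 ▸ h2, h5 ▸ h1⟩, Or.inr (h5 ▸ ha)⟩
  have hedge' : ∀ a b : Vert, a ∈ S → Step ω' D a b → Step ω D a b := by
    rintro a b ha ⟨h1, h2, e, h3, h4⟩
    refine ⟨h1, h2, e, h3, ?_⟩
    rw [h e, h4]
    rw [mem_eTouch]
    rcases h3 with ⟨h5, h6⟩ | ⟨h5, h6⟩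
    · exact ⟨mem_eBall.2 (hD (h5 ▸ h1)), ⟨h5 ▸ h1, h6 ▸ h2⟩, Or.inl (h5 ▸ ha)⟩
    · exact ⟨mem_eBall.2 (hD (h6 ▸ h2)), ⟨h6 ▸ h2, h5 ▸ h1⟩, Or.inr (h5 ▸ ha)⟩
  show clus ω' D X = S
  ext v
  constructor
  · rintro ⟨x, hx, hc⟩
    refine hc.induction_right (P := fun y => y ∈ S) ?_ ?_
    · rw [← hω']; exact ⟨x, hx, Conn.refl hc.mem_left⟩
    · intro a b _ hab ha
      rw [← hω'] at ha ⊢
      exact mem_clus_of_conn ha (hedge' a b (hω' ▸ ha) hab).conn
  · intro hv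
    rw [← hω'] at hv
    obtain ⟨x, hx, hc⟩ := hv
    refine ⟨x, hx, ?_⟩
    refine hc.induction_right (P := fun y => Conn ω' D x y) (Conn.refl hc.mem_left) ?_
    intro a b ha hab ih
    exact ih.tail (hedge a b (hω' ▸ ⟨x, hx, ha⟩) hab)

lemma localOn_isClus (hD : D ⊆ ball 0 R) : LocalOn (eTouch R D S) (IsClus D S) := by
  rintro ω ω' h ⟨u, hu, hc⟩
  exact ⟨u, hu, localOn_full hD ω ω' h hc⟩

/-- The vertices of the ball as a finset. -/
noncomputable def bF (R : ℕ) : Finset Vert :=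
  Finset.Icc (-(R : ℤ)) R ×ˢ Finset.Icc (-(R : ℤ)) R

lemma mem_bF {v : Vert} : v ∈ bF R ↔ v ∈ ball 0 R := by
  simp only [bF, Finset.mem_product, Finset.mem_Icc, mem_ball, Prod.fst_zero, Prod.snd_zero]
  omega

lemma exists_finset (hS : S ⊆ ball 0 R) : ∃ T ∈ (bF R).powerset, (↑T : Set Vert) = S := by
  classical
  refine ⟨(bF R).filter (fun v => v ∈ S), Finset.mem_powerset.2 (Finset.filter_subset _ _), ?_⟩
  ext v
  simp only [Finset.coe_filter, mem_bF, Set.mem_ofPred_eq]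
  exact ⟨fun h => h.2, fun h => ⟨hS h, h⟩⟩

/-- **Exploration.**  Given the cluster `S` of `X`, the events `A' S` and `G S` only depend on
fresh edges; if `c P(A' S) ≤ P(G S)` for all `S`, then `c P(A) ≤ P(B)`. -/
theorem explore (hD : D ⊆ ball 0 R) {A B : Set Config} {A' G : Set Vert → Set Config} {c : ℝ}
    (hc0 : 0 ≤ c) (hA : ∀ ω ∈ A, ω ∈ A' (clus ω D X))
    (lA : ∀ S, LocalOn (eIn R (D \ S)) (A' S)) (lG : ∀ S, LocalOn (eIn R (D \ S)) (G S))
    (hc : ∀ S, c * Pr q (A' S) ≤ Pr q (G S)) (hB : ∀ ω, ω ∈ G (clus ω D X) → ω ∈ B) :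
    c * Pr q A ≤ Pr q B := by
  classical
  have h1 : Pr q A ≤ ∑ T ∈ (bF R).powerset, Pr q (Full D X T ∩ A' T) := by
    refine (Pr_mono ?_).trans (Pr_biUnion_le _ _)
    intro ω hω
    obtain ⟨T, hT, hTe⟩ := exists_finset (S := clus ω D X) (clus_subset.trans hD)
    simp only [Set.mem_iUnion]
    refine ⟨T, hT, hTe.symm, ?_⟩
    rw [hTe]
    exact hA ω hω
  have h2 : ∑ T ∈ (bF R).powerset, Pr q (Full D X T ∩ G T) ≤ Pr q B := by
    have hd : Set.PairwiseDisjoint (↑(bF R).powerset)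
        (fun T : Finset Vert => Full D X T ∩ G T) := by
      intro T1 _ T2 _ hne
      rw [Function.onFun, Set.disjoint_left]
      rintro ω ⟨k1, _⟩ ⟨k2, _⟩
      apply hne
      have k3 : (↑T1 : Set Vert) = ↑T2 := by
        rw [← (show clus ω D X = ↑T1 from k1), ← (show clus ω D X = ↑T2 from k2)]
      exact_mod_cast k3
    have hm : ∀ T ∈ (bF R).powerset, MeasurableSet (Full D X (↑T : Set Vert) ∩ G T) :=
      fun T _ => ((localOn_full hD).inter' (lG T)).measurableSet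
    have := measureReal_biUnion_finset (μ := μ q) hd hm
    unfold Pr
    rw [← this]
    refine measureReal_mono ?_
    intro ω hω
    simp only [Set.mem_iUnion] at hω
    obtain ⟨T, _, k1, k2⟩ := hω
    apply hB
    rw [show clus ω D X = ↑T from k1]
    exact k2
  calc c * Pr q A ≤ c * ∑ T ∈ (bF R).powerset, Pr q (Full D X T ∩ A' T) :=
        mul_le_mul_of_nonneg_left h1 hc0
    _ = ∑ T ∈ (bF R).powerset, c * Pr q (Full D X T ∩ A' T) := Finset.mul_sum _ _ _
    _ ≤ ∑ T ∈ (bF R).powerset, Pr q (Full D X T ∩ G T) := by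
        refine Finset.sum_le_sum fun T _ => ?_
        rw [Pr_inter_of_disjoint (localOn_full hD) (lA T) eTouch_disjoint,
          Pr_inter_of_disjoint (localOn_full hD) (lG T) eTouch_disjoint]
        calc c * (Pr q (Full D X T) * Pr q (A' T)) = Pr q (Full D X T) * (c * Pr q (A' T)) := by
              ring
          _ ≤ _ := mul_le_mul_of_nonneg_left (hc T) Pr_nonneg
    _ ≤ Pr q B := h2

/-- The expected number of clusters of `D` in the family `F`. -/
noncomputable def EN (q : I) (D : Set Vert) (F : Finset (Finset Vert)) : ℝ :=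
  ∑ T ∈ F, Pr q (IsClus D T)

/-- If each cluster of the family is alone with probability at least `c`, then the expected number
of clusters is at most `c⁻¹ P(B)`. -/
theorem EN_le (hD : D ⊆ ball 0 R) {F : Finset (Finset Vert)} {B : Set Config}
    {G : Set Vert → Set Config} {c : ℝ} (lG : ∀ S, LocalOn (eIn R (D \ S)) (G S))
    (hc : ∀ T ∈ F, c ≤ Pr q (G T))
    (hu : ∀ ω, ∀ T ∈ F, ∀ T' ∈ F, ω ∈ IsClus D T → ω ∈ G T → ω ∈ IsClus D T' → ω ∈ G T' → T = T')
    (hB : ∀ ω, ∀ T ∈ F, ω ∈ IsClus D T → ω ∈ G T → ω ∈ B) :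
    c * EN q D F ≤ Pr q B := by
  classical
  have h2 : ∑ T ∈ F, Pr q (IsClus D T ∩ G T) ≤ Pr q B := by
    have hd : Set.PairwiseDisjoint (↑F) (fun T : Finset Vert => IsClus D (↑T : Set Vert) ∩ G T) := by
      intro T1 hT1 T2 hT2 hne
      rw [Function.onFun, Set.disjoint_left]
      rintro ω ⟨k1, k2⟩ ⟨k3, k4⟩
      exact hne (hu ω T1 hT1 T2 hT2 k1 k2 k3 k4)
    have hm : ∀ T ∈ F, MeasurableSet (IsClus D (↑T : Set Vert) ∩ G T) :=
      fun T _ => ((localOn_isClus hD).inter' (lG T)).measurableSet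
    have := measureReal_biUnion_finset (μ := μ q) hd hm
    unfold Pr
    rw [← this]
    refine measureReal_mono ?_
    intro ω hω
    simp only [Set.mem_iUnion] at hω
    obtain ⟨T, hT, k1, k2⟩ := hω
    exact hB ω T hT k1 k2
  refine le_trans ?_ h2
  rw [EN, Finset.mul_sum]
  refine Finset.sum_le_sum fun T hT => ?_
  rw [Pr_inter_of_disjoint (localOn_isClus hD) (lG T) eTouch_disjoint, mul_comm]
  exact mul_le_mul_of_nonneg_left (hc T hT) Pr_nonneg

/-- Upper bound by the expected number of clusters times the conditional probability of the rest. -/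
theorem le_EN (hD : D ⊆ ball 0 R) {F : Finset (Finset Vert)} {A : Set Config}
    {G : Set Vert → Set Config} {δ : ℝ} (lG : ∀ S, LocalOn (eIn R (D \ S)) (G S))
    (hδ : ∀ T ∈ F, Pr q (G T) ≤ δ) (hA : ∀ ω ∈ A, ∃ T ∈ F, ω ∈ IsClus D T ∧ ω ∈ G T) :
    Pr q A ≤ EN q D F * δ := by
  classical
  calc Pr q A ≤ Pr q (⋃ T ∈ F, (IsClus D (↑T : Set Vert) ∩ G T)) := by
        refine Pr_mono fun ω hω => ?_
        simp only [Set.mem_iUnion]
        obtain ⟨T, hT, h1, h2⟩ := hA ω hω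
        exact ⟨T, hT, h1, h2⟩
    _ ≤ ∑ T ∈ F, Pr q (IsClus D (↑T : Set Vert) ∩ G T) := Pr_biUnion_le _ _
    _ ≤ ∑ T ∈ F, Pr q (IsClus D (↑T : Set Vert)) * δ := by
        refine Finset.sum_le_sum fun T hT => ?_
        rw [Pr_inter_of_disjoint (localOn_isClus hD) (lG T) eTouch_disjoint]
        exact mul_le_mul_of_nonneg_left (hδ T hT) Pr_nonneg
    _ = EN q D F * δ := by rw [EN, Finset.sum_mul]

lemma isClus_unique {S T : Set Vert} (h1 : ω ∈ IsClus D S) (h2 : ω ∈ IsClus D T) {v : Vert}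
    (hS : v ∈ S) (hT : v ∈ T) : S = T := by
  obtain ⟨u, _, rfl⟩ := h1
  obtain ⟨w, _, rfl⟩ := h2
  obtain ⟨_, rfl, hu⟩ := hS
  obtain ⟨_, rfl, hw⟩ := hT
  ext z
  constructor
  · rintro ⟨_, rfl, h⟩
    exact ⟨_, rfl, (hw.trans hu.symm).trans h⟩
  · rintro ⟨_, rfl, h⟩
    exact ⟨_, rfl, (hu.trans hw.symm).trans h⟩

lemma isClus_clus {u : Vert} (hu : u ∈ D) : ω ∈ IsClus D (clus ω D {u}) :=
  ⟨u, ⟨u, rfl, Conn.refl hu⟩, rfl⟩

/-- Two points of a cluster are joined. -/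
lemma isClus_conn (h : ω ∈ IsClus D S) {u v : Vert} (hu : u ∈ S) (hv : v ∈ S) :
    Conn ω D u v := by
  obtain ⟨w, _, rfl⟩ := h
  obtain ⟨_, rfl, h1⟩ := hu
  obtain ⟨_, rfl, h2⟩ := hv
  exact h1.symm.trans h2

lemma isClus_closed (h : ω ∈ IsClus D S) {u v : Vert} (hu : u ∈ S) (hc : Conn ω D u v) :
    v ∈ S := by
  obtain ⟨w, _, rfl⟩ := h
  obtain ⟨_, rfl, h1⟩ := hu
  exact ⟨_, rfl, h1.trans hc⟩

lemma isClus_subset (h : ω ∈ IsClus D S) : S ⊆ D := by
  obtain ⟨w, _, rfl⟩ := h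
  exact clus_subset

lemma isClus_off (h : ω ∈ IsClus D S) {u v : Vert} (hu : u ∉ S) (hc : Conn ω D u v) :
    Conn ω (D \ S) u v := by
  obtain ⟨w, _, rfl⟩ := h
  exact conn_off hu hc

end Pool.Agent.H26.HP
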