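import Pool.Agent.H26.HP.Two

/-!
# Half plane: two disjoint crossing clusters

`U s r`: two different clusters of the half ball of radius `r` join `ball 0 s` to distance `r`.
Its probability is at most `C (s / r) ^ (1 + κ)`.
-/

open MeasureTheory ProbabilityTheory unitInterval

namespace Pool.Agent.H26.HP

open Pool.Agent.H89.Perc
open Pool.Agent.H61.NC (RSWreg)

variable {ω ω' : Config} {D X S T : Set Vert} {R n r s : ℕ} {q : I} {c : ℝ}

/-! ### Reflection -/

/-- Reflection in the vertical axis. -/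
def rho (v : Vert) : Vert := (0 - v.1, v.2)

lemma rho_rho (v : Vert) : rho (rho v) = v := by
  ext <;> simp [rho]

lemma rho_injective : Function.Injective rho := fun a b h => by
  rw [← rho_rho a, h, rho_rho]

lemma rho_mem_hb {v : Vert} : rho v ∈ hb 0 r ↔ v ∈ hb 0 r := by
  simp only [mem_hb, rho]
  omega

lemma rho_mem_ball {v : Vert} : rho v ∈ ball 0 r ↔ v ∈ ball 0 r := by
  simp only [mem_ball, rho, Prod.fst_zero, Prod.snd_zero]
  omega

lemma rho_mem_sphere {v : Vert} : rho v ∈ sphere 0 r ↔ v ∈ sphere 0 r := by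
  simp only [sphere, Set.mem_ofPred_eq, rho_mem_ball]
  simp only [rho, Prod.fst_zero, Prod.snd_zero]
  constructor <;> (rintro ⟨h1, h2⟩; refine ⟨h1, ?_⟩; omega)

lemma conn_rho {u v : Vert} : Conn (fun e => ω (reflX 0 e)) (hb 0 r) u v ↔
    Conn ω (hb 0 r) (rho u) (rho v) := by
  rw [conn_reflX]
  have : {w : Vert | (0 - w.1, w.2) ∈ hb 0 r} = hb 0 r := by
    ext w
    exact rho_mem_hb
  rw [this]
  rfl

lemma isClus_rho : {ω : Config | (fun e => ω (reflX 0 e)) ∈ IsClus (hb 0 r) S} =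
    IsClus (hb 0 r) (rho '' S) := by
  have key : ∀ (ω : Config) (u : Vert),
      clus (fun e => ω (reflX 0 e)) (hb 0 r) {u} = rho '' (clus ω (hb 0 r) {rho u}) := by
    intro ω u
    ext v
    simp only [clus, Set.mem_singleton_iff, exists_eq_left, Set.mem_image, Set.mem_ofPred_eq]
    rw [conn_rho]
    constructor
    · intro h
      exact ⟨rho v, h, rho_rho v⟩
    · rintro ⟨w, h, rfl⟩
      rwa [rho_rho]
  ext ω
  simp only [IsClus, Set.mem_ofPred_eq]
  constructor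
  · rintro ⟨u, hu, h⟩
    refine ⟨rho u, ⟨u, hu, rfl⟩, ?_⟩
    rw [key] at h
    rw [← h, ← Set.image_comp]
    have : rho ∘ rho = id := by funext v; exact rho_rho v
    rw [this, Set.image_id]
  · rintro ⟨_, ⟨u, hu, rfl⟩, h⟩
    refine ⟨u, hu, ?_⟩
    rw [key, h, ← Set.image_comp]
    have : rho ∘ rho = id := by funext v; exact rho_rho v
    rw [this, Set.image_id]

lemma Pr_isClus_rho : Pr q (IsClus (hb 0 r) (rho '' S)) = Pr q (IsClus (hb 0 r) S) := by
  rw [← isClus_rho, Pr_comp (localOn_isClus (R := r) (hb_subset_ball (by simp)))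
    (reflX_injective 0).injOn]

/-- `S` joins `ball 0 s` to distance `r` and avoids the base to the left of `-16 s`. -/
def PhiL (s r : ℕ) (S : Set Vert) : Prop :=
  (∃ v ∈ S, v ∈ ball 0 s) ∧ (∃ w ∈ S, w ∈ sphere 0 r) ∧
    ∀ x : ℤ, 16 * s < x → x ≤ r → ((-x, 0) : Vert) ∉ S

/-- The family of the sets with the property `PhiL`. -/
noncomputable def FL (s r : ℕ) : Finset (Finset Vert) := by
  classical exact (bF r).powerset.filter (fun T => PhiL s r ↑T)

lemma mem_FL {T : Finset Vert} : T ∈ FL s r ↔ T ⊆ bF r ∧ PhiL s r ↑T := by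
  classical
  rw [FL, Finset.mem_filter, Finset.mem_powerset]

lemma PhiL_iff : PhiL s r S ↔ PhiR s r (rho '' S) := by
  have h1 : ∀ v : Vert, v ∈ rho '' S ↔ rho v ∈ S := by
    intro v
    constructor
    · rintro ⟨w, hw, rfl⟩
      rwa [rho_rho]
    · intro h
      exact ⟨_, h, rho_rho v⟩
  simp only [PhiL, PhiR, h1]
  refine and_congr ?_ (and_congr ?_ ?_)
  · constructor
    · rintro ⟨v, hv, h⟩
      exact ⟨rho v, by rwa [rho_rho], rho_mem_ball.2 h⟩
    · rintro ⟨v, hv, h⟩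
      exact ⟨rho v, hv, rho_mem_ball.2 h⟩
  · constructor
    · rintro ⟨v, hv, h⟩
      exact ⟨rho v, by rwa [rho_rho], rho_mem_sphere.2 h⟩
    · rintro ⟨v, hv, h⟩
      exact ⟨rho v, hv, rho_mem_sphere.2 h⟩
  · simp only [rho, zero_sub]

theorem EN_left (hc : 0 < c) (hs : 1 ≤ s) (hr : 32 * s ≤ r) (hreg : RSWreg c r q) :
    EN q (hb 0 r) (FL s r) ≤ 594 / c ^ 11 * (s / r) := by
  classical
  have h1 : ∀ T : Finset Vert, (↑(T.image rho) : Set Vert) = rho '' ↑T := fun T => by simp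
  have h2 : ∀ T : Finset Vert, (T.image rho).image rho = T := by
    intro T
    rw [Finset.image_image]
    have : rho ∘ rho = id := by funext v; exact rho_rho v
    rw [this, Finset.image_id]
  have h3 : ∀ T : Finset Vert, T ⊆ bF r → T.image rho ⊆ bF r := by
    intro T hT v hv
    rw [Finset.mem_image] at hv
    obtain ⟨w, hw, rfl⟩ := hv
    rw [mem_bF, rho_mem_ball, ← mem_bF]
    exact hT hw
  have h4 : EN q (hb 0 r) (FL s r) = EN q (hb 0 r) (FR s r) := by
    rw [EN, EN]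
    refine Finset.sum_nbij' (fun T => T.image rho) (fun T => T.image rho) ?_ ?_ ?_ ?_ ?_
    · intro T hT
      rw [mem_FL] at hT
      rw [mem_FR, h1]
      exact ⟨h3 T hT.1, PhiL_iff.1 hT.2⟩
    · intro T hT
      rw [mem_FR] at hT
      rw [mem_FL, PhiL_iff, ← h1, h2]
      exact ⟨h3 T hT.1, hT.2⟩
    · intro T _
      exact h2 T
    · intro T _
      exact h2 T
    · intro T _
      rw [h1, Pr_isClus_rho]
  rw [h4]
  exact EN_right hc hs hr hreg

/-! ### Planarity -/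

lemma isClus_conn' (h : ω ∈ IsClus D S) {u v : Vert} (hu : u ∈ S) (hv : v ∈ S) :
    Conn ω S u v := by
  refine (isClus_conn h hu hv).induction_right (P := fun x => Conn ω S u x) (Conn.refl hu) ?_
  intro a b ha hab ih
  exact ih.tail ⟨ih.mem_right, isClus_closed h hu (ha.tail hab), hab.2.2⟩

/-- Two disjoint connected sets in the half ball: the first one cannot touch the base on both
sides of a base point of the second one, if the second one reaches the sphere. -/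
theorem planar (hr : 1 ≤ r) (hS : S ⊆ hb 0 r) (hT : T ⊆ hb 0 r) (hdis : ∀ v ∈ S, v ∉ T)
    {a b a' : ℤ} {z : Vert} (hab : a < a') (hab' : a' < b)
    (h1 : Conn ω S (a, 0) (b, 0)) (h2 : Conn ω' T (a', 0) z) (hz : z ∈ sphere 0 r) : False := by
  classical
  -- the extended sets
  set S' : Set Vert := {v | v ∈ S ∨ (v.1 = a ∧ -1 ≤ v.2 ∧ v.2 ≤ 0) ∨
    (v.2 = -1 ∧ -(r : ℤ) - 2 ≤ v.1 ∧ v.1 ≤ a) ∨ (v.1 = b ∧ -1 ≤ v.2 ∧ v.2 ≤ 0) ∨
    (v.2 = -1 ∧ b ≤ v.1 ∧ v.1 ≤ r + 2)} with hS'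
  set T' : Set Vert := {v | v ∈ T ∨ (v.1 = a' ∧ -2 ≤ v.2 ∧ v.2 ≤ 0) ∨
    (v.1 = z.1 ∧ z.2 = r ∧ r ≤ v.2 ∧ v.2 ≤ r + 1) ∨
    (z.1 = -r ∧ v.2 = z.2 ∧ -(r : ℤ) - 1 ≤ v.1 ∧ v.1 ≤ -r) ∨
    (z.1 = -r ∧ v.1 = -(r : ℤ) - 1 ∧ z.2 ≤ v.2 ∧ v.2 ≤ r + 1) ∨
    (z.1 = r ∧ v.2 = z.2 ∧ r ≤ v.1 ∧ v.1 ≤ r + 1) ∨
    (z.1 = r ∧ v.1 = r + 1 ∧ z.2 ≤ v.2 ∧ v.2 ≤ r + 1)} with hT'
  have haS := h1.mem_left
  have hbS := h1.mem_right
  have haT := h2.mem_left
  have hzT := h2.mem_right
  have ha := mem_hb.1 (hS haS)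
  have hb := mem_hb.1 (hS hbS)
  have ha' := mem_hb.1 (hT haT)
  have hz' := mem_hb.1 (hT hzT)
  simp only at ha hb ha'
  have hzs := hz.2
  simp only [Prod.fst_zero, Prod.snd_zero] at hzs
  have c1 : Conn allOpen S' (-(r : ℤ) - 2, -1) (r + 2, -1) := by
    have k1 : Conn allOpen S' (-(r : ℤ) - 2, -1) (a, -1) :=
      conn_line_x (by omega) fun x h3 h4 => Or.inr (Or.inr (Or.inl ⟨rfl, h3, h4⟩))
    have k2 : Conn allOpen S' (a, -1) (a, 0) :=
      conn_line_y (by omega) fun y h3 h4 => Or.inr (Or.inl ⟨rfl, h3, h4⟩)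
    have k3 : Conn allOpen S' (a, 0) (b, 0) :=
      h1.mono (fun v hv => Or.inl hv) (fun _ _ => rfl)
    have k4 : Conn allOpen S' (b, -1) (b, 0) :=
      conn_line_y (by omega) fun y h3 h4 => Or.inr (Or.inr (Or.inr (Or.inl ⟨rfl, h3, h4⟩)))
    have k5 : Conn allOpen S' (b, -1) (r + 2, -1) :=
      conn_line_x (by omega) fun x h3 h4 => Or.inr (Or.inr (Or.inr (Or.inr ⟨rfl, h3, h4⟩)))
    exact k1.trans (k2.trans (k3.trans (k4.symm.trans k5)))
  have c2 : ∃ t : ℤ, Conn allOpen T' (a', -2) (t, r + 1) := by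
    have k1 : Conn allOpen T' (a', -2) (a', 0) :=
      conn_line_y (by omega) fun y h3 h4 => Or.inr (Or.inl ⟨rfl, h3, h4⟩)
    have k2 : Conn allOpen T' (a', 0) z :=
      h2.mono (fun v hv => Or.inl hv) (fun _ _ => rfl)
    by_cases e1 : z.2 = r
    · have k3 : Conn allOpen T' (z.1, (r : ℤ)) (z.1, r + 1) :=
        conn_line_y (by omega) fun y h3 h4 => Or.inr (Or.inr (Or.inl ⟨rfl, e1, h3, h4⟩))
      have e : z = (z.1, (r : ℤ)) := by ext <;> simp [e1]
      exact ⟨z.1, k1.trans (k2.trans (e ▸ k3))⟩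
    by_cases e2 : z.1 = -r
    · have k3 : Conn allOpen T' (-(r : ℤ) - 1, z.2) (-(r : ℤ), z.2) :=
        conn_line_x (by omega) fun x h3 h4 => Or.inr (Or.inr (Or.inr (Or.inl ⟨e2, rfl, h3, h4⟩)))
      have k4 : Conn allOpen T' (-(r : ℤ) - 1, z.2) (-(r : ℤ) - 1, r + 1) :=
        conn_line_y (by omega) fun y h3 h4 =>
          Or.inr (Or.inr (Or.inr (Or.inr (Or.inl ⟨e2, rfl, h3, h4⟩))))
      have e : z = (-(r : ℤ), z.2) := by ext <;> simp [e2]
      refine ⟨-(r : ℤ) - 1, k1.trans (k2.trans ?_)⟩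
      rw [e]
      exact k3.symm.trans k4
    · have e3 : z.1 = r := by
        rcases hzs with h | h | h | h <;> omega
      have k3 : Conn allOpen T' ((r : ℤ), z.2) (r + 1, z.2) :=
        conn_line_x (by omega) fun x h3 h4 =>
          Or.inr (Or.inr (Or.inr (Or.inr (Or.inr (Or.inl ⟨e3, rfl, h3, h4⟩)))))
      have k4 : Conn allOpen T' ((r : ℤ) + 1, z.2) (r + 1, r + 1) :=
        conn_line_y (by omega) fun y h3 h4 =>
          Or.inr (Or.inr (Or.inr (Or.inr (Or.inr (Or.inr ⟨e3, rfl, h3, h4⟩)))))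
      have e : z = ((r : ℤ), z.2) := by ext <;> simp [e3]
      refine ⟨r + 1, k1.trans (k2.trans ?_)⟩
      rw [e]
      exact k3.trans k4
  obtain ⟨t, c2⟩ := c2
  have hS'sub : S' ⊆ rect (-(r : ℤ) - 2) (r + 2) (-2) (r + 1) := by
    intro v hv
    rcases hv with h | h | h | h | h
    · have := mem_hb.1 (hS h)
      exact ⟨by omega, by omega, by omega, by omega⟩
    all_goals exact ⟨by omega, by omega, by omega, by omega⟩
  have hT'sub : T' ⊆ rect (-(r : ℤ) - 2) (r + 2) (-2) (r + 1) := by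
    intro v hv
    rcases hv with h | h | h | h | h | h | h
    · have := mem_hb.1 (hT h)
      exact ⟨by omega, by omega, by omega, by omega⟩
    all_goals exact ⟨by omega, by omega, by omega, by omega⟩
  obtain ⟨w, hw1, hw2⟩ := cross_in c1 hS'sub rfl rfl c2 hT'sub rfl rfl
  have hwS := hw1.mem_right
  have hwT := hw2.mem_right
  obtain ⟨x, y⟩ := w
  obtain ⟨z1, z2⟩ := z
  simp only at hz' hzs
  rcases hwS with h | h | h | h | h
  · have hxy := mem_hb.1 (hS h)
    simp only at hxy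
    rcases hwT with g | g | g | g | g | g | g
    · exact hdis _ h g
    · simp only at g
      have : y = 0 := by omega
      rw [this, g.1] at h
      exact hdis _ h haT
    · simp only at g
      have e1 : x = z1 := g.1
      have e2 : y = z2 := by omega
      rw [e1, e2] at h
      exact hdis _ h hzT
    · simp only at g
      have e1 : x = z1 := by omega
      have e2 : y = z2 := g.2.1
      rw [e1, e2] at h
      exact hdis _ h hzT
    · simp only at g
      omega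
    · simp only at g
      have e1 : x = z1 := by omega
      have e2 : y = z2 := g.2.1
      rw [e1, e2] at h
      exact hdis _ h hzT
    · simp only at g
      omega
  · simp only at h
    rcases hwT with g | g | g | g | g | g | g
    · have hxy := mem_hb.1 (hT g)
      simp only at hxy
      have : y = 0 := by omega
      rw [this, h.1] at g
      exact hdis _ haS g
    · simp only at g; omega
    · simp only at g; omega
    · simp only at g
      have e1 : z1 = a := by omega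
      have e2 : z2 = 0 := by omega
      rw [e1, e2] at hzT
      exact hdis _ haS hzT
    · simp only at g; omega
    · simp only at g
      have e1 : z1 = a := by omega
      have e2 : z2 = 0 := by omega
      rw [e1, e2] at hzT
      exact hdis _ haS hzT
    · simp only at g; omega
  · simp only at h
    rcases hwT with g | g | g | g | g | g | g
    · have hxy := mem_hb.1 (hT g)
      simp only at hxy
      omega
    all_goals (simp only at g; omega)
  · simp only at h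
    rcases hwT with g | g | g | g | g | g | g
    · have hxy := mem_hb.1 (hT g)
      simp only at hxy
      have : y = 0 := by omega
      rw [this, h.1] at g
      exact hdis _ hbS g
    · simp only at g; omega
    · simp only at g; omega
    · simp only at g
      have e1 : z1 = b := by omega
      have e2 : z2 = 0 := by omega
      rw [e1, e2] at hzT
      exact hdis _ hbS hzT
    · simp only at g; omega
    · simp only at g
      have e1 : z1 = b := by omega
      have e2 : z2 = 0 := by omega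
      rw [e1, e2] at hzT
      exact hdis _ hbS hzT
    · simp only at g; omega
  · simp only at h
    rcases hwT with g | g | g | g | g | g | g
    · have hxy := mem_hb.1 (hT g)
      simp only at hxy
      omega
    all_goals (simp only at g; omega)

/-! ### Two clusters -/

/-- Two different clusters of the half ball of radius `r` join `ball 0 s` to distance `r`. -/
def U (s r : ℕ) : Set Config :=
  {ω | ∃ u ∈ ball 0 s, ∃ v ∈ ball 0 s, (∃ w ∈ sphere 0 r, Conn ω (hb 0 r) u w) ∧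
    (∃ w ∈ sphere 0 r, Conn ω (hb 0 r) v w) ∧ ¬ Conn ω (hb 0 r) u v}

/-- There is a crossing off `S`. -/
def GG (s r : ℕ) (S : Set Vert) : Set Config :=
  {ω | ∃ u ∈ ball 0 s, ∃ w ∈ sphere 0 r, Conn ω (hb 0 r \ S) u w}

/-- One of the two clusters avoids one side of the base. -/
theorem U_cases (hr : 1 ≤ r) (h : ω ∈ U s r) :
    (∃ T ∈ FR s r, ω ∈ IsClus (hb 0 r) ↑T ∧ ω ∈ GG s r ↑T) ∨
    (∃ T ∈ FL s r, ω ∈ IsClus (hb 0 r) ↑T ∧ ω ∈ GG s r ↑T) := by
  classical
  obtain ⟨u, hu, v, hv, ⟨w, hw, h1⟩, ⟨w', hw', h2⟩, h3⟩ := h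
  have hDR : hb 0 r ⊆ ball 0 r := hb_subset_ball (by simp)
  set S : Set Vert := clus ω (hb 0 r) {u} with hSdef
  set T : Set Vert := clus ω (hb 0 r) {v} with hTdef
  have cS : ω ∈ IsClus (hb 0 r) S := isClus_clus h1.mem_left
  have cT : ω ∈ IsClus (hb 0 r) T := isClus_clus h2.mem_left
  have huS : u ∈ S := ⟨u, rfl, Conn.refl h1.mem_left⟩
  have hvT : v ∈ T := ⟨v, rfl, Conn.refl h2.mem_left⟩
  have hwS : w ∈ S := ⟨u, rfl, h1⟩
  have hwT : w' ∈ T := ⟨v, rfl, h2⟩
  have hdis : ∀ x ∈ S, x ∉ T := by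
    intro x hx hx'
    have := isClus_unique cS cT hx hx'
    exact h3 (isClus_conn cS huS (this ▸ hvT))
  have gS : ω ∈ GG s r S := ⟨v, hv, w', hw', isClus_off cS (fun h => hdis v h hvT) h2⟩
  have gT : ω ∈ GG s r T := ⟨u, hu, w, hw, isClus_off cT (hdis u huS) h1⟩
  obtain ⟨FS, hFS, hFSe⟩ := exists_finset (S := S) (R := r) (clus_subset.trans hDR)
  obtain ⟨FT, hFT, hFTe⟩ := exists_finset (S := T) (R := r) (clus_subset.trans hDR)
  rw [Finset.mem_powerset] at hFS hFT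
  by_contra hno
  push Not at hno
  obtain ⟨n1, n2⟩ := hno
  -- none of the four cases
  have m1 : ∃ x : ℤ, 16 * s < x ∧ x ≤ r ∧ ((x, 0) : Vert) ∈ S := by
    by_contra hx
    push Not at hx
    exact n1 FS (mem_FR.2 ⟨hFS, hFSe ▸ ⟨⟨u, huS, hu⟩, ⟨w, hwS, hw⟩, hx⟩⟩) (hFSe ▸ cS) (hFSe ▸ gS)
  have m2 : ∃ x : ℤ, 16 * s < x ∧ x ≤ r ∧ ((-x, 0) : Vert) ∈ S := by
    by_contra hx
    push Not at hx
    exact n2 FS (mem_FL.2 ⟨hFS, hFSe ▸ ⟨⟨u, huS, hu⟩, ⟨w, hwS, hw⟩, hx⟩⟩) (hFSe ▸ cS) (hFSe ▸ gS)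
  have m3 : ∃ x : ℤ, 16 * s < x ∧ x ≤ r ∧ ((x, 0) : Vert) ∈ T := by
    by_contra hx
    push Not at hx
    exact n1 FT (mem_FR.2 ⟨hFT, hFTe ▸ ⟨⟨v, hvT, hv⟩, ⟨w', hwT, hw'⟩, hx⟩⟩) (hFTe ▸ cT) (hFTe ▸ gT)
  have m4 : ∃ x : ℤ, 16 * s < x ∧ x ≤ r ∧ ((-x, 0) : Vert) ∈ T := by
    by_contra hx
    push Not at hx
    exact n2 FT (mem_FL.2 ⟨hFT, hFTe ▸ ⟨⟨v, hvT, hv⟩, ⟨w', hwT, hw'⟩, hx⟩⟩) (hFTe ▸ cT) (hFTe ▸ gT)
  obtain ⟨b, b1, b2, b3⟩ := m1
  obtain ⟨a, a1, a2, a3⟩ := m2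
  obtain ⟨b', b1', b2', b3'⟩ := m3
  obtain ⟨a', a1', a2', a3'⟩ := m4
  have hne : a ≠ a' := by
    rintro rfl
    exact hdis _ a3 a3'
  rcases lt_or_gt_of_ne hne with h | h
  · -- `-a' < -a`: the second cluster surrounds
    exact planar hr (isClus_subset cT) (isClus_subset cS) (fun x hx hx' => hdis x hx' hx)
      (a := -a') (a' := -a) (b := b') (by omega) (by omega)
      (isClus_conn' cT a3' b3') (isClus_conn' cS a3 hwS) hw
  · exact planar hr (isClus_subset cS) (isClus_subset cT) hdis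
      (a := -a) (a' := -a') (b := b) (by omega) (by omega)
      (isClus_conn' cS a3 b3) (isClus_conn' cT a3' hwT) hw'

/-- **(H3)** Two disjoint clusters crossing a half annulus. -/
theorem U_le (c : ℝ) (hc : 0 < c) : ∃ C κ : ℝ, 0 < C ∧ 0 < κ ∧ κ ≤ 1 ∧
    ∀ (n : ℕ) (q : I), RSWreg c n q → ∀ s r : ℕ, 1 ≤ s → s ≤ r → r ≤ n →
      Pr q (U s r) ≤ C * ((s : ℝ) / r) ^ (1 + κ) := by
  obtain ⟨C, κ, hC, hκ, hκ1, hdec⟩ := armBox_decay c hc
  refine ⟨max (1188 / c ^ 11 * C) (32 ^ (1 + κ)), κ, by positivity, hκ, hκ1, ?_⟩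
  intro n q hreg s r hs hsr hrn
  have hr1 : 1 ≤ r := hs.trans hsr
  have hs0 : (0 : ℝ) < s := by exact_mod_cast hs
  have hr0 : (0 : ℝ) < r := by exact_mod_cast hr1
  have hregr : RSWreg c r q := RSWreg.mono hreg hrn
  by_cases h32 : 32 * s ≤ r
  · set δ : ℝ := Pr q (ArmBox 0 s r) with hδ
    have hδ1 : δ ≤ C * ((s : ℝ) / r) ^ κ := hdec r q hregr s r hs hsr le_rfl
    have hDR : hb 0 r ⊆ ball 0 r := hb_subset_ball (by simp)
    have lG : ∀ S, LocalOn (eIn r (hb 0 r \ S)) (GG s r S) := by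
      rintro S ω ω' hω ⟨u, hu, w, hw, h2⟩
      exact ⟨u, hu, w, hw, localOn_conn_in (Set.sdiff_subset.trans hDR) _ _ ω ω' hω h2⟩
    have hG : ∀ S, Pr q (GG s r S) ≤ δ := by
      intro S
      refine Pr_mono ?_
      rintro ω ⟨u, hu, w, hw, h2⟩
      exact ⟨u, hu, w, hw, h2.mono_set (Set.sdiff_subset.trans hDR)⟩
    have h1 : Pr q {ω | ∃ T ∈ FR s r, ω ∈ IsClus (hb 0 r) ↑T ∧ ω ∈ GG s r ↑T} ≤
        EN q (hb 0 r) (FR s r) * δ :=
      le_EN hDR lG (fun T _ => hG T) fun ω h => h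
    have h2 : Pr q {ω | ∃ T ∈ FL s r, ω ∈ IsClus (hb 0 r) ↑T ∧ ω ∈ GG s r ↑T} ≤
        EN q (hb 0 r) (FL s r) * δ :=
      le_EN hDR lG (fun T _ => hG T) fun ω h => h
    have h3 : Pr q (U s r) ≤ EN q (hb 0 r) (FR s r) * δ + EN q (hb 0 r) (FL s r) * δ := by
      refine le_trans ((Pr_mono ?_).trans Pr_union_le) (add_le_add h1 h2)
      intro ω hω
      exact U_cases hr1 hω
    have h4 := EN_right hc hs h32 hregr
    have h5 := EN_left hc hs h32 hregr
    have hδ0 : 0 ≤ δ := Pr_nonneg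
    have h6 : Pr q (U s r) ≤ 1188 / c ^ 11 * (s / r) * δ := by
      calc Pr q (U s r) ≤ _ := h3
        _ ≤ 594 / c ^ 11 * (s / r) * δ + 594 / c ^ 11 * (s / r) * δ :=
          add_le_add (mul_le_mul_of_nonneg_right h4 hδ0) (mul_le_mul_of_nonneg_right h5 hδ0)
        _ = _ := by ring
    calc Pr q (U s r) ≤ 1188 / c ^ 11 * (s / r) * δ := h6
      _ ≤ 1188 / c ^ 11 * (s / r) * (C * ((s : ℝ) / r) ^ κ) :=
          mul_le_mul_of_nonneg_left hδ1 (by positivity)
      _ = (1188 / c ^ 11 * C) * ((s : ℝ) / r) ^ (1 + κ) := by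
          rw [Real.rpow_add (by positivity), Real.rpow_one]
          ring
      _ ≤ _ := mul_le_mul_of_nonneg_right (le_max_left _ _) (by positivity)
  · have h1 : (1 : ℝ) ≤ 32 * ((s : ℝ) / r) := by
      rw [← mul_div_assoc, le_div_iff₀ hr0, one_mul]
      have : r ≤ 32 * s := by omega
      exact_mod_cast this
    calc Pr q (U s r) ≤ 1 := Pr_le_one
      _ ≤ (32 * ((s : ℝ) / r)) ^ (1 + κ) := Real.one_le_rpow h1 (by linarith)
      _ = 32 ^ (1 + κ) * ((s : ℝ) / r) ^ (1 + κ) := Real.mul_rpow (by norm_num) (by positivity)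
      _ ≤ _ := mul_le_mul_of_nonneg_right (le_max_right _ _) (by positivity)

end Pool.Agent.H26.HP
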