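import Pool.Agent.H26.HP.One

/-!
# Half plane: clusters which cross a half annulus and avoid one side of the base
-/

open MeasureTheory ProbabilityTheory unitInterval

namespace Pool.Agent.H26.HP

open Pool.Agent.H89.Perc
open Pool.Agent.H61.NC (RSWreg)

variable {ω ω' : Config} {D X S : Set Vert} {R n r s : ℕ} {q : I} {c : ℝ}

/-- `S` joins `ball 0 s` to distance `r` and avoids the base to the right of `16 s`. -/
def PhiR (s r : ℕ) (S : Set Vert) : Prop :=
  (∃ v ∈ S, v ∈ ball 0 s) ∧ (∃ w ∈ S, w ∈ sphere 0 r) ∧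
    ∀ x : ℤ, 16 * s < x → x ≤ r → ((x, 0) : Vert) ∉ S

/-- The family of the sets with the property `PhiR`. -/
noncomputable def FR (s r : ℕ) : Finset (Finset Vert) := by
  classical exact (bF r).powerset.filter (fun T => PhiR s r ↑T)

lemma mem_FR {T : Finset Vert} : T ∈ FR s r ↔ T ⊆ bF r ∧ PhiR s r ↑T := by
  classical
  rw [FR, Finset.mem_filter, Finset.mem_powerset]

/-- The base to the right of `16 s`. -/
def XR (s r : ℕ) : Set Vert := {v | v.2 = 0 ∧ 16 * (s : ℤ) < v.1 ∧ v.1 ≤ r}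

/-- Auxiliary event. -/
def BR (s r : ℕ) : Set Config :=
  {ω | (∀ y ∈ clus ω (hb 0 r) (XR s r), y ∉ ball 0 (2 * s)) ∧
    ∃ u ∈ ball 0 s, ∃ w ∈ sphere 0 r, Conn ω (hb 0 r \ clus ω (hb 0 r) (XR s r)) u w}

/-- A cluster touches the base near the origin, reaches distance `r` and avoids the base to the
right of `16 s`. -/
def TR (s r : ℕ) : Set Config :=
  {ω | ∃ b : ℤ, -(2 * s) ≤ b ∧ b ≤ 2 * s ∧ (∃ w ∈ sphere 0 r, Conn ω (hb 0 r) (b, 0) w) ∧
    ∀ x : ℤ, 16 * s < x → x ≤ r → ¬ Conn ω (hb 0 r) (b, 0) (x, 0)}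

lemma not_mem_ball_of_sphere {t r : ℕ} (h : t < r) {w : Vert} (hw : w ∈ sphere 0 r) :
    w ∉ ball 0 t := by
  intro hb
  have h1 := hw.2
  simp only [mem_ball, Prod.fst_zero, Prod.snd_zero] at hb h1
  omega

theorem two_step1 (hc : 0 < c) (hs : 1 ≤ s) (hr : 32 * s ≤ r) (hreg : RSWreg c r q) :
    c ^ 4 * EN q (hb 0 r) (FR s r) ≤ Pr q (BR s r) := by
  have hDR : hb 0 r ⊆ ball 0 r := hb_subset_ball (by simp)
  have h16 : hb 0 (16 * s) ⊆ hb 0 r := hb_subset_hb (by simp; omega)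
  refine EN_le (G := fun S => {ω | ¬ ∃ u ∈ ball 0 (2 * s), ∃ w ∈ sphere 0 (16 * s),
    Conn ω (hb 0 (16 * s) \ S) u w}) hDR ?_ ?_ ?_ ?_
  · rintro S ω ω' hω h1 ⟨u, hu, w, hw, h2⟩
    refine h1 ⟨u, hu, w, hw, ?_⟩
    refine Conn.congr (fun e h3 h4 => (hω e ?_).symm) h2
    exact mem_eIn.2 ⟨mem_eBall.2 (hDR (h16 h3.1)), ⟨h16 h3.1, h3.2⟩, ⟨h16 h4.1, h4.2⟩⟩
  · intro T _
    refine (noCross_reg hc (RSWreg.mono hreg (m := 16 * s) (by omega)) (s := 2 * s) (r := 16 * s)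
      (by omega) le_rfl).trans (Pr_mono ?_)
    rintro ω hω ⟨u, hu, w, hw, h2⟩
    refine hω ⟨u, hu, w, hw, h2.mono_set ?_⟩
    exact fun v hv => hv.1.1
  · intro ω T hT T' hT' h1 h2 h3 h4
    rw [mem_FR] at hT hT'
    by_contra hne
    obtain ⟨⟨v, hv, hvb⟩, ⟨w, hw, hws⟩, _⟩ := hT'.2
    have hvT : v ∉ (↑T : Set Vert) := by
      intro h
      have := isClus_unique h1 h3 h hv
      exact hne (by exact_mod_cast this)
    have h5 := isClus_off h1 hvT (isClus_conn h3 hv hw)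
    obtain ⟨x, hx, h6⟩ := h5.to_sphere (v := 0) (r := 16 * s)
      (ball_subset_ball (by omega) hvb) (Or.inl (not_mem_ball_of_sphere (by omega) hws))
    refine h2 ⟨v, ball_subset_ball (by omega) hvb, x, hx, h6.mono_set ?_⟩
    exact fun z hz => ⟨⟨hz.2, hz.1.1.2⟩, hz.1.2⟩
  · intro ω T hT h1 h2
    rw [mem_FR] at hT
    obtain ⟨⟨v, hv, hvb⟩, ⟨w, hw, hws⟩, h3⟩ := hT.2
    have key : ∀ y ∈ clus ω (hb 0 r) (XR s r), y ∉ ball 0 (2 * s) := by
      rintro y ⟨x, hx, h4⟩ hy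
      have hxT : x ∉ (↑T : Set Vert) := by
        have := h3 x.1 hx.2.1 hx.2.2
        have e : (x.1, (0 : ℤ)) = x := by rw [← hx.1]
        rwa [e] at this
      have h5 := (isClus_off h1 hxT h4).symm
      obtain ⟨x', hx', h6⟩ := h5.to_sphere (v := 0) (r := 16 * s)
        (ball_subset_ball (by omega) hy) (Or.inl (by
          intro hb
          simp only [mem_ball, Prod.fst_zero, Prod.snd_zero] at hb
          have := hx.2.1
          push_cast at hb
          omega))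
      refine h2 ⟨y, hy, x', hx', h6.mono_set ?_⟩
      exact fun z hz => ⟨⟨hz.2, hz.1.1.2⟩, hz.1.2⟩
    refine ⟨key, v, hvb, w, hws, ?_⟩
    exact conn_off (fun h => key v h (ball_subset_ball (by omega) hvb)) (isClus_conn h1 hv hw)

theorem two_step2 (hc : 0 < c) (hs : 1 ≤ s) (hr : 32 * s ≤ r) (hreg : RSWreg c r q) :
    c ^ 3 * Pr q (BR s r) ≤ Pr q (TR s r) := by
  classical
  have hDR : hb 0 r ⊆ ball 0 r := hb_subset_ball (by simp)
  have h2s : hb 0 (2 * s) ⊆ hb 0 r := hb_subset_hb (by simp; omega)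
  set A' : Set Vert → Set Config := fun S => {ω | (∀ y ∈ S, y ∉ ball 0 (2 * s)) ∧
    ∃ u ∈ ball 0 s, ∃ w ∈ sphere 0 r, Conn ω (hb 0 r \ S) u w} with hA'
  have lA : ∀ S, LocalOn (eIn r (hb 0 r \ S)) (A' S) := by
    rintro S ω ω' hω ⟨h1, u, hu, w, hw, h2⟩
    exact ⟨h1, u, hu, w, hw,
      localOn_conn_in (Set.sdiff_subset.trans hDR) _ _ ω ω' hω h2⟩
  refine explore (X := XR s r) (A' := A')
    (G := fun S => {ω | (∀ y ∈ S, y ∉ ball 0 (2 * s)) ∧ ω ∈ A' S ∧ ω ∈ HC s}) hDR (by positivity)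
    ?_ lA ?_ ?_ ?_
  · intro ω h
    exact h
  · rintro S ω ω' hω ⟨h1, h2, h3⟩
    refine ⟨h1, lA S ω ω' hω h2, ?_⟩
    refine localOn_HC (Set.sdiff_subset.trans hDR) ?_ ω ω' hω h3
    exact fun v hv => ⟨h2s hv, fun hvS => h1 v hvS hv.1⟩
  · intro S
    by_cases hS : ∀ y ∈ S, y ∉ ball 0 (2 * s)
    · have hHC : LocalOn (eIn r (hb 0 r \ S)) (HC s) :=
        localOn_HC (Set.sdiff_subset.trans hDR) fun v hv => ⟨h2s hv, fun hvS => hS v hvS hv.1⟩
      have iA : Incr (A' S) := by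
        rintro ω ω' hω ⟨h1, u, hu, w, hw, h2⟩
        exact ⟨h1, u, hu, w, hw, h2.mono le_rfl hω⟩
      have h1 := fkg (p := q) (lA S) hHC iA (incr_HC s)
      have h2 := HC_ge hc hs (RSWreg.mono hreg (m := s) (by omega))
      calc c ^ 3 * Pr q (A' S) = Pr q (A' S) * c ^ 3 := mul_comm _ _
        _ ≤ Pr q (A' S) * Pr q (HC s) := mul_le_mul_of_nonneg_left h2 Pr_nonneg
        _ ≤ Pr q (A' S ∩ HC s) := h1
        _ ≤ Pr q {ω | (∀ y ∈ S, y ∉ ball 0 (2 * s)) ∧ ω ∈ A' S ∧ ω ∈ HC s} :=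
            Pr_mono fun ω hω => ⟨hS, hω.1, hω.2⟩
    · have e1 : A' S = ∅ := by
        ext ω
        simp only [hA', Set.mem_ofPred_eq, Set.mem_empty_iff_false, iff_false]
        exact fun h => hS h.1
      rw [e1]
      have e2 : Pr q (∅ : Set Config) = 0 := by simp [Pr]
      rw [e2, mul_zero]
      exact Pr_nonneg
  · rintro ω ⟨h1, ⟨_, u, hu, w, hw, h2⟩, h3⟩
    obtain ⟨w0, h4, b, h5, h6, h7⟩ := HC_meet hs h3
      (S := hb 0 r \ clus ω (hb 0 r) (XR s r)) (fun v hv => hv.1.2) h2 hu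
      (Or.inl (not_mem_ball_of_sphere (by omega) hw))
    have h8 : Conn ω (hb 0 r) (b, 0) w0 := h7.mono_set h2s
    refine ⟨b, h5, h6, ⟨w, hw, ?_⟩, fun x h9 h10 h11 => ?_⟩
    · exact h8.trans ((h4.symm.trans h2).mono_set Set.sdiff_subset)
    · refine h1 (b, 0) ⟨(x, 0), ⟨rfl, h9, h10⟩, h11.symm⟩ ?_
      simp only [mem_ball, Prod.fst_zero, Prod.snd_zero]
      push_cast
      omega

theorem two_step3 (hc : 0 < c) (hs : 1 ≤ s) (hr : 32 * s ≤ r) (hreg : RSWreg c r q) :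
    Pr q (TR s r) ≤ 594 / c ^ 4 * (s / r) := by
  classical
  have hsub : TR s r ⊆ ⋃ z ∈ Finset.Icc (-(16 * s : ℤ)) (16 * s), E1 (r - 16 * s) z := by
    rintro ω ⟨b, h1, h2, ⟨w, hw, h3⟩, h4⟩
    -- the rightmost point of the cluster on the base
    set P : Finset ℤ := (Finset.Icc b (16 * s)).filter
      (fun x => Conn ω (hb 0 r) (b, 0) (x, 0)) with hP
    have hbD : ((b, 0) : Vert) ∈ hb 0 r := h3.mem_left
    have hne : P.Nonempty := ⟨b, by
      rw [hP, Finset.mem_filter, Finset.mem_Icc]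
      exact ⟨⟨le_rfl, by omega⟩, Conn.refl hbD⟩⟩
    obtain ⟨z, hz, hmax⟩ := P.exists_max_image id hne
    rw [hP, Finset.mem_filter, Finset.mem_Icc] at hz
    simp only [Set.mem_iUnion, Finset.mem_Icc]
    have habs : |(0 : ℤ) - z| + ((r - 16 * s : ℕ) : ℤ) ≤ r := by
      rcases abs_cases ((0 : ℤ) - z) with ⟨h4, h5⟩ | ⟨h4, h5⟩ <;> rw [h4] <;> omega
    refine ⟨z, ⟨by omega, hz.1.2⟩, ?_, fun x h5 h6 h7 => ?_⟩
    · refine reach_restrict habs ?_ hw (hz.2.symm.trans h3)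
      simp only [mem_ball]
      omega
    · have h8 : Conn ω (hb 0 r) (b, 0) (x, 0) := hz.2.trans (h7.mono_set (hb_subset_hb habs))
      by_cases h9 : x ≤ 16 * s
      · have := hmax x (by
          rw [hP, Finset.mem_filter, Finset.mem_Icc]
          exact ⟨⟨by omega, h9⟩, h8⟩)
        simp only [id] at this
        omega
      · refine h4 x (by omega) ?_ h8
        have := h8.mem_right
        rw [mem_hb] at this
        simp only at this
        omega
  have hR1 : 1 ≤ r - 16 * s := by omega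
  have hr0 : (0 : ℝ) < r := by
    have : 0 < r := by omega
    exact_mod_cast this
  have hs1 : (1 : ℝ) ≤ s := by exact_mod_cast hs
  have hR2 : (r : ℝ) / 2 ≤ ((r - 16 * s : ℕ) : ℝ) := by
    have : r ≤ 2 * (r - 16 * s) := by omega
    have : (r : ℝ) ≤ 2 * ((r - 16 * s : ℕ) : ℝ) := by exact_mod_cast this
    linarith
  calc Pr q (TR s r) ≤ ∑ z ∈ Finset.Icc (-(16 * s : ℤ)) (16 * s), Pr q (E1 (r - 16 * s) z) :=
        (Pr_mono hsub).trans (Pr_biUnion_le _ _)
    _ ≤ ∑ _z ∈ Finset.Icc (-(16 * s : ℤ)) (16 * s), 9 / (c ^ 4 * (r / 2)) := by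
        refine Finset.sum_le_sum fun z _ => ?_
        refine (E1_le hc hR1 (RSWreg.mono hreg (by omega)) z).trans ?_
        have : 0 < c ^ 4 := by positivity
        exact div_le_div_of_nonneg_left (by norm_num) (by positivity)
          (mul_le_mul_of_nonneg_left hR2 this.le)
    _ = (32 * s + 1) * (9 / (c ^ 4 * (r / 2))) := by
        rw [Finset.sum_const, Int.card_Icc, nsmul_eq_mul]
        congr 1
        have : ((16 * s : ℤ) + 1 - -(16 * s : ℤ)).toNat = 32 * s + 1 := by omega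
        rw [this]
        push_cast
        ring
    _ ≤ (33 * s) * (9 / (c ^ 4 * (r / 2))) := by
        refine mul_le_mul_of_nonneg_right (by linarith) (by positivity)
    _ = 594 / c ^ 4 * (s / r) := by
        field_simp
        ring

/-- **(H2)** The expected number of clusters which join `ball 0 s` to distance `r` in the half ball
and avoid the base to the right of `16 s` is at most `C s / r`. -/
theorem EN_right (hc : 0 < c) (hs : 1 ≤ s) (hr : 32 * s ≤ r) (hreg : RSWreg c r q) :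
    EN q (hb 0 r) (FR s r) ≤ 594 / c ^ 11 * (s / r) := by
  have h1 := two_step1 (q := q) hc hs hr hreg
  have h2 := two_step2 (q := q) hc hs hr hreg
  have h3 := two_step3 (q := q) hc hs hr hreg
  have hc7 : 0 < c ^ 7 := by positivity
  have h4 : c ^ 7 * EN q (hb 0 r) (FR s r) ≤ 594 / c ^ 4 * (s / r) := by
    calc c ^ 7 * EN q (hb 0 r) (FR s r) = c ^ 3 * (c ^ 4 * EN q (hb 0 r) (FR s r)) := by ring
      _ ≤ c ^ 3 * Pr q (BR s r) := mul_le_mul_of_nonneg_left h1 (by positivity)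
      _ ≤ Pr q (TR s r) := h2
      _ ≤ _ := h3
  calc EN q (hb 0 r) (FR s r) = (c ^ 7 * EN q (hb 0 r) (FR s r)) / c ^ 7 := by field_simp
    _ ≤ (594 / c ^ 4 * (s / r)) / c ^ 7 := by gcongr
    _ = 594 / c ^ 11 * (s / r) := by field_simp

end Pool.Agent.H26.HP
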